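import Mathlib

/-!
# MP_c68aab_nt, Q1: a `q`-congruence for sums of products of `q`-Delannoy numbers

Let `a_n = D_q(m,n)`, `b_n = D_{1/q}(m,n)` and `β_n = q^(mn) b_n`.

* `∑ a_n x^n = ∏_{i<m} (1 + q^i x) / ∏_{i≤m} (1 - q^i x)`; this gives three term recurrences for `a_n`
  and `β_n`.
* Telescoping: `2 (1+q) [m] [m+1] q^(-m-1) ∑_{j<n} [2j+1] q^(-j) a_j b_j = q^(-(m+1)n) [n]² Y_n` with
  `Y_n = -a_n β_n + ([m+1] + q[m]) a_n β_{n-1} + ([m+1] + [m]) a_{n-1} β_n - q^m a_{n-1} β_{n-1}`.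
* For `n = p` the polynomial `[p]` is prime in `ℤ[q,1/q]`. If `p ∤ m(m+1)` this gives divisibility
  by `[p]²`. If `m = pM` or `m + 1 = pM`, then `Y_p ≡ -4M²` modulo `[p]` (from the generating function
  at a primitive `p`-th root of unity), which gives the value of the sum modulo `[p]²`.
-/

set_option autoImplicit false
set_option linter.unusedSectionVars false

open Finset

namespace Pool.Agent.Results.MP_c68aab_nt.QDelannoy

section generic

variable {A : Type*} [CommRing A]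

/-- Gaussian binomial coefficients with parameter `q`, by the `q`-Pascal rule -/
def gb (q : A) : ℕ → ℕ → A
  | _, 0 => 1
  | 0, _ + 1 => 0
  | n + 1, k + 1 => gb q n k + q ^ (k + 1) * gb q n (k + 1)

/-- the `q`-integer `[n] = 1 + q + ... + q^(n-1)` -/
def qi (q : A) (n : ℕ) : A := ∑ i ∈ range n, q ^ i

/-- the `q`-Delannoy number `D_q(m,n)` -/
def D (q : A) (m n : ℕ) : A :=
  ∑ j ∈ range (n + 1), q ^ (j * (j - 1) / 2) * gb q n j * gb q (m + n - j) n

@[simp] lemma gb_zero (q : A) (n : ℕ) : gb q n 0 = 1 := by cases n <;> rfl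

lemma gb_zero_succ (q : A) (k : ℕ) : gb q 0 (k + 1) = 0 := rfl

lemma gb_succ (q : A) (n k : ℕ) : gb q (n + 1) (k + 1) = gb q n k + q ^ (k + 1) * gb q n (k + 1) := rfl

lemma gb_eq_zero (q : A) (n k : ℕ) (h : n < k) : gb q n k = 0 := by
  induction n generalizing k with
  | zero =>
    obtain ⟨l, rfl⟩ : ∃ l, k = l + 1 := ⟨k - 1, by omega⟩
    rfl
  | succ n ih =>
    obtain ⟨l, rfl⟩ : ∃ l, k = l + 1 := ⟨k - 1, by omega⟩
    rw [gb_succ, ih l (by omega), ih (l + 1) (by omega)]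
    simp

@[simp] lemma gb_self (q : A) (n : ℕ) : gb q n n = 1 := by
  induction n with
  | zero => rfl
  | succ n ih => rw [gb_succ, ih, gb_eq_zero q n (n + 1) (by omega)]; simp

/-- `∏_{i<k} (1 - q^(n-i))` -/
def P (q : A) (n k : ℕ) : A := ∏ i ∈ range k, (1 - q ^ (n - i))

/-- `∏_{i<k} (1 - q^(i+1))` -/
def F (q : A) (k : ℕ) : A := ∏ i ∈ range k, (1 - q ^ (i + 1))

lemma P_zero_of_lt (q : A) (n k : ℕ) (h : n < k) : P q n k = 0 := by
  apply prod_eq_zero (i := n) (mem_range.mpr h)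
  simp

lemma gb_prod (q : A) (n k : ℕ) : gb q n k * F q k = P q n k := by
  induction n generalizing k with
  | zero =>
    rcases k with _ | k
    · simp [F, P]
    · rw [gb_zero_succ, P_zero_of_lt q 0 (k + 1) (by omega)]; simp
  | succ n ih =>
    rcases k with _ | k
    · simp [F, P]
    · have h1 := ih k
      have h2 := ih (k + 1)
      have hF : F q (k + 1) = F q k * (1 - q ^ (k + 1)) := by
        unfold F; rw [prod_range_succ]
      have hP : P q n (k + 1) = P q n k * (1 - q ^ (n - k)) := by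
        unfold P; rw [prod_range_succ]
      have hP2 : P q (n + 1) (k + 1) = P q n k * (1 - q ^ (n + 1)) := by
        unfold P
        rw [prod_range_succ']
        congr 1
        apply prod_congr rfl
        intro i _
        rw [Nat.add_sub_add_right]
      rw [gb_succ, hP2]
      rcases Nat.lt_or_ge n k with h | h
      · rw [P_zero_of_lt q n k h, gb_eq_zero q n k h, gb_eq_zero q n (k + 1) (by omega)]
        simp
      · have e : q ^ (k + 1) * q ^ (n - k) = q ^ (n + 1) := by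
          rw [← pow_add]; congr 1; omega
        calc (gb q n k + q ^ (k + 1) * gb q n (k + 1)) * F q (k + 1)
            = (gb q n k * F q k) * (1 - q ^ (k + 1)) + q ^ (k + 1) * (gb q n (k + 1) * F q (k + 1)) := by
              rw [hF]; ring
          _ = P q n k * (1 - q ^ (k + 1)) + q ^ (k + 1) * (P q n k * (1 - q ^ (n - k))) := by
              rw [h1, h2, hP]
          _ = P q n k * (1 - q ^ (k + 1) * q ^ (n - k)) := by ring
          _ = _ := by rw [e]

lemma P_mul_F (q : A) (n k : ℕ) (h : k ≤ n) : P q n k * F q (n - k) = F q n := by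
  induction k with
  | zero => simp [P]
  | succ k ih =>
    have h1 := ih (by omega)
    have e : n - k = (n - (k + 1)) + 1 := by omega
    have hF : F q (n - k) = F q (n - (k + 1)) * (1 - q ^ (n - k)) := by
      conv_lhs => rw [e]
      unfold F
      rw [prod_range_succ, ← e]
    have hP : P q n (k + 1) = P q n k * (1 - q ^ (n - k)) := by
      unfold P; rw [prod_range_succ]
    rw [hP, ← h1, hF]
    ring

lemma gb_fact (q : A) (n k : ℕ) (h : k ≤ n) : gb q n k * (F q k * F q (n - k)) = F q n := by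
  rw [← P_mul_F q n k h, ← gb_prod]
  ring

lemma map_gb {B : Type*} [CommRing B] (f : A →+* B) (q : A) (n k : ℕ) :
    f (gb q n k) = gb (f q) n k := by
  induction n generalizing k with
  | zero => rcases k with _ | k <;> simp [gb]
  | succ n ih => rcases k with _ | k <;> simp [gb, ih]

lemma map_D {B : Type*} [CommRing B] (f : A →+* B) (q : A) (m n : ℕ) :
    f (D q m n) = D (f q) m n := by
  unfold D
  simp [map_sum, map_gb]

lemma map_qi {B : Type*} [CommRing B] (f : A →+* B) (q : A) (n : ℕ) :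
    f (qi q n) = qi (f q) n := by
  unfold qi
  simp [map_sum]

lemma qi_mul (q : A) (n : ℕ) : (1 - q) * qi q n = 1 - q ^ n := by
  unfold qi
  exact mul_neg_geom_sum q n

end generic

section dom

variable {A : Type*} [CommRing A] [IsDomain A] {q : A}

lemma F_ne (hq : ∀ n : ℕ, 1 ≤ n → q ^ n ≠ 1) (k : ℕ) : F q k ≠ 0 := by
  unfold F
  rw [prod_ne_zero_iff]
  intro i _
  exact sub_ne_zero.mpr (hq (i + 1) (by omega)).symm

/-- the second `q`-Pascal rule -/
lemma gb_succ' (hq : ∀ n : ℕ, 1 ≤ n → q ^ n ≠ 1) (n k : ℕ) (h : k ≤ n) :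
    gb q (n + 1) (k + 1) = q ^ (n - k) * gb q n k + gb q n (k + 1) := by
  have h1 := gb_prod q n k
  have h2 := gb_prod q n (k + 1)
  have h3 := gb_prod q (n + 1) (k + 1)
  have hF : F q (k + 1) = F q k * (1 - q ^ (k + 1)) := by
    unfold F; rw [prod_range_succ]
  have hP : P q n (k + 1) = P q n k * (1 - q ^ (n - k)) := by
    unfold P; rw [prod_range_succ]
  have hP2 : P q (n + 1) (k + 1) = P q n k * (1 - q ^ (n + 1)) := by
    unfold P
    rw [prod_range_succ']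
    congr 1
    apply prod_congr rfl
    intro i _
    rw [Nat.add_sub_add_right]
  have e : q ^ (n - k) * q ^ (k + 1) = q ^ (n + 1) := by
    rw [← pow_add]; congr 1; omega
  apply mul_right_cancel₀ (F_ne hq (k + 1))
  rw [h3, add_mul, h2, hP2, hP, mul_assoc, hF]
  calc P q n k * (1 - q ^ (n + 1)) = P q n k * (1 - q ^ (n - k) * q ^ (k + 1)) := by rw [e]
    _ = q ^ (n - k) * (P q n k * (1 - q ^ (k + 1))) + P q n k * (1 - q ^ (n - k)) := by ring
    _ = _ := by rw [← h1]; ring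

lemma gb_swap (hq : ∀ n : ℕ, 1 ≤ n → q ^ n ≠ 1) (m n j : ℕ) (hj : j ≤ n) :
    gb q m j * gb q (m + (n - j)) (n - j) = gb q n j * gb q (m + n - j) n := by
  rcases Nat.lt_or_ge m j with h | h
  · rw [gb_eq_zero q m j h, gb_eq_zero q (m + n - j) n (by omega)]
    simp
  · have h1 := gb_fact q m j h
    have h2 := gb_fact q (m + (n - j)) (n - j) (by omega)
    have h3 := gb_fact q n j hj
    have h4 := gb_fact q (m + n - j) n (by omega)
    have e1 : m + (n - j) - (n - j) = m := by omega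
    have e2 : m + n - j - n = m - j := by omega
    have e3 : m + (n - j) = m + n - j := by omega
    rw [e1] at h2
    rw [e2] at h4
    rw [e3] at h2 ⊢
    have hne : F q j * F q (m - j) * F q (n - j) * (F q m * F q n) ≠ 0 :=
      mul_ne_zero (mul_ne_zero (mul_ne_zero (F_ne hq _) (F_ne hq _)) (F_ne hq _))
        (mul_ne_zero (F_ne hq _) (F_ne hq _))
    apply mul_right_cancel₀ hne
    calc gb q m j * gb q (m + n - j) (n - j) * (F q j * F q (m - j) * F q (n - j) * (F q m * F q n))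
        = (gb q m j * (F q j * F q (m - j))) * (gb q (m + n - j) (n - j) * (F q (n - j) * F q m)) * F q n := by
          ring
      _ = (gb q n j * (F q j * F q (n - j))) * (gb q (m + n - j) n * (F q n * F q (m - j))) * F q m := by
          rw [h1, h2, h3, h4]; ring
      _ = _ := by ring

open PowerSeries in
/-- `∏_{i<m} (1 + q^i X)` -/
noncomputable def N (q : A) (m : ℕ) : PowerSeries A := ∏ i ∈ range m, (1 + C (q ^ i) * X)

open PowerSeries in
/-- `∏_{i<m} (1 - q^i X)` -/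
noncomputable def Q (q : A) (m : ℕ) : PowerSeries A := ∏ i ∈ range m, (1 - C (q ^ i) * X)

/-- `∑ gb(m+k,k) X^k` -/
noncomputable def H (q : A) (m : ℕ) : PowerSeries A := PowerSeries.mk fun k => gb q (m + k) k

/-- the generating function of the `q`-Delannoy numbers -/
noncomputable def G (q : A) (m : ℕ) : PowerSeries A := PowerSeries.mk fun n => D q m n

open PowerSeries in
lemma coeff_N (hq : ∀ n : ℕ, 1 ≤ n → q ^ n ≠ 1) (m j : ℕ) :
    coeff j (N q m) = q ^ (j * (j - 1) / 2) * gb q m j := by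
  induction m generalizing j with
  | zero =>
    rcases j with _ | j
    · simp [N]
    · simp [N, gb, PowerSeries.coeff_one]
  | succ m ih =>
    have hN : N q (m + 1) = N q m + C (q ^ m) * (X * N q m) := by
      unfold N; rw [prod_range_succ]; ring
    rw [hN, map_add, coeff_C_mul]
    rcases j with _ | j
    · rw [ih, coeff_zero_X_mul]; simp
    · rw [ih, coeff_succ_X_mul, ih, Nat.triangle_succ]
      rcases Nat.lt_or_ge m j with h | h
      · rw [gb_eq_zero q m j h, gb_eq_zero q m (j + 1) (by omega), gb_eq_zero q (m + 1) (j + 1) (by omega)]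
        simp
      · rw [gb_succ' hq m j h, pow_add]
        have e : q ^ m = q ^ j * q ^ (m - j) := by rw [← pow_add]; congr 1; omega
        rw [e]
        ring

open PowerSeries in
lemma H_mul_Q (hq : ∀ n : ℕ, 1 ≤ n → q ^ n ≠ 1) (m : ℕ) : H q m * Q q (m + 1) = 1 := by
  induction m with
  | zero =>
    have h1 : H q 0 = PowerSeries.mk 1 := by
      ext k
      simp [H]
    have h2 : Q q (0 + 1) = 1 - X := by simp [Q]
    rw [h1, h2]
    exact mk_one_mul_one_sub_eq_one A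
  | succ m ih =>
    have hQ : Q q (m + 1 + 1) = (1 - C (q ^ (m + 1)) * X) * Q q (m + 1) := by
      unfold Q; rw [prod_range_succ _ (m + 1)]; ring
    have hH : H q (m + 1) * (1 - C (q ^ (m + 1)) * X) = H q m := by
      have e : H q (m + 1) * (1 - C (q ^ (m + 1)) * X) =
        H q (m + 1) - C (q ^ (m + 1)) * (X * H q (m + 1)) := by ring
      rw [e]
      ext k
      rw [map_sub, coeff_C_mul]
      rcases k with _ | k
      · rw [coeff_zero_X_mul]; simp [H]
      · rw [coeff_succ_X_mul]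
        unfold H
        rw [coeff_mk, coeff_mk, coeff_mk]
        have h := gb_succ' hq (m + 1 + k) k (by omega)
        have e1 : m + 1 + k - k = m + 1 := by omega
        rw [e1] at h
        have e2 : m + 1 + (k + 1) = m + 1 + k + 1 := by ring
        have e3 : m + (k + 1) = m + 1 + k := by ring
        rw [e2, e3, h]
        ring
    rw [hQ, ← mul_assoc, hH, ih]

open PowerSeries in
lemma G_eq (hq : ∀ n : ℕ, 1 ≤ n → q ^ n ≠ 1) (m : ℕ) : G q m = N q m * H q m := by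
  ext n
  rw [coeff_mul, Finset.Nat.sum_antidiagonal_eq_sum_range_succ
    (fun i j => coeff i (N q m) * coeff j (H q m))]
  unfold G D
  rw [coeff_mk]
  apply sum_congr rfl
  intro j hj
  have hj' : j ≤ n := by have := mem_range.mp hj; omega
  rw [coeff_N hq, mul_assoc, ← gb_swap hq m n j hj']
  unfold H
  rw [coeff_mk]
  ring

lemma G_mul_Q (hq : ∀ n : ℕ, 1 ≤ n → q ^ n ≠ 1) (m : ℕ) : G q m * Q q (m + 1) = N q m := by
  rw [G_eq hq, mul_assoc, H_mul_Q hq, mul_one]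

open PowerSeries in
lemma rescale_N (m : ℕ) : (1 + X) * rescale q (N q m) = N q m * (1 + C (q ^ m) * X) := by
  have h : N q m * (1 + C (q ^ m) * X) = N q (m + 1) := by
    unfold N; rw [prod_range_succ]
  rw [h]
  unfold N
  rw [prod_range_succ', map_prod, mul_comm]
  congr 1
  · apply prod_congr rfl
    intro i _
    rw [map_add, map_one, map_mul, rescale_X, ← mul_assoc]
    congr 2
    have : rescale q (C (q ^ i)) = C (q ^ i) := by
      ext k
      rw [coeff_rescale, coeff_C]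
      split_ifs with hk
      · subst hk; simp
      · simp
    rw [this, ← map_mul, pow_succ]
  · simp

open PowerSeries in
lemma rescale_Q (m : ℕ) : rescale q (Q q (m + 1)) * (1 - X) = Q q (m + 1) * (1 - C (q ^ (m + 1)) * X) := by
  have h : Q q (m + 1) * (1 - C (q ^ (m + 1)) * X) = Q q (m + 1 + 1) := by
    unfold Q; rw [prod_range_succ _ (m + 1)]
  rw [h]
  unfold Q
  rw [prod_range_succ' _ (m + 1), map_prod]
  congr 1
  · apply prod_congr rfl
    intro i _
    rw [map_sub, map_one, map_mul, rescale_X, ← mul_assoc]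
    congr 2
    have : rescale q (C (q ^ i)) = C (q ^ i) := by
      ext k
      rw [coeff_rescale, coeff_C]
      split_ifs with hk
      · subst hk; simp
      · simp
    rw [this, ← map_mul, pow_succ]
  · simp

open PowerSeries in
lemma G_functional (hq : ∀ n : ℕ, 1 ≤ n → q ^ n ≠ 1) (m : ℕ) :
    (1 + X) * (1 - C (q ^ (m + 1)) * X) * rescale q (G q m) =
      (1 + C (q ^ m) * X) * (1 - X) * G q m := by
  have h1 := H_mul_Q hq m
  have h2 : rescale q (H q m) * rescale q (Q q (m + 1)) = 1 := by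
    rw [← map_mul, h1, map_one]
  have h3 : rescale q (H q m) * (1 - C (q ^ (m + 1)) * X) = (1 - X) * H q m := by
    calc rescale q (H q m) * (1 - C (q ^ (m + 1)) * X)
        = rescale q (H q m) * (Q q (m + 1) * (1 - C (q ^ (m + 1)) * X)) * H q m := by
          rw [mul_comm (H q m)] at h1
          calc rescale q (H q m) * (1 - C (q ^ (m + 1)) * X)
              = rescale q (H q m) * (1 - C (q ^ (m + 1)) * X) * 1 := by ring
            _ = _ := by rw [← h1]; ring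
      _ = (rescale q (H q m) * rescale q (Q q (m + 1))) * (1 - X) * H q m := by
          rw [← rescale_Q]; ring
      _ = _ := by rw [h2]; ring
  rw [G_eq hq, map_mul]
  calc (1 + X) * (1 - C (q ^ (m + 1)) * X) * (rescale q (N q m) * rescale q (H q m))
      = ((1 + X) * rescale q (N q m)) * (rescale q (H q m) * (1 - C (q ^ (m + 1)) * X)) := by ring
    _ = _ := by rw [rescale_N, h3]; ring

open PowerSeries in
lemma D_rec (hq : ∀ n : ℕ, 1 ≤ n → q ^ n ≠ 1) (m n : ℕ) :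
    (1 - q ^ (n + 2)) * D q m (n + 2) =
      ((1 - q ^ (m + 1)) * q ^ (n + 1) + (1 - q ^ m)) * D q m (n + 1) +
        q ^ m * (1 - q ^ (n + 1)) * D q m n := by
  have h := G_functional hq m
  have e1 : (1 + X) * (1 - C (q ^ (m + 1)) * X) * rescale q (G q m) =
      rescale q (G q m) + X * rescale q (G q m) - C (q ^ (m + 1)) * (X * rescale q (G q m))
        - C (q ^ (m + 1)) * (X * (X * rescale q (G q m))) := by ring
  have e2 : (1 + C (q ^ m) * X) * (1 - X) * G q m =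
      G q m - X * G q m + C (q ^ m) * (X * G q m) - C (q ^ m) * (X * (X * G q m)) := by ring
  rw [e1, e2] at h
  have h2 := congrArg (coeff (n + 2)) h
  simp only [map_add, map_sub, coeff_C_mul] at h2
  rw [show n + 2 = n + 1 + 1 by rfl] at h2
  simp only [coeff_succ_X_mul, coeff_rescale] at h2
  unfold G at h2
  simp only [coeff_mk] at h2
  rw [show n + 2 = n + 1 + 1 by rfl]
  linear_combination -h2

open PowerSeries in
lemma D_one (hq : ∀ n : ℕ, 1 ≤ n → q ^ n ≠ 1) (m : ℕ) :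
    (1 - q) * D q m 1 = ((1 - q ^ (m + 1)) + (1 - q ^ m)) * D q m 0 := by
  have h := G_functional hq m
  have e1 : (1 + X) * (1 - C (q ^ (m + 1)) * X) * rescale q (G q m) =
      rescale q (G q m) + X * rescale q (G q m) - C (q ^ (m + 1)) * (X * rescale q (G q m))
        - C (q ^ (m + 1)) * (X * (X * rescale q (G q m))) := by ring
  have e2 : (1 + C (q ^ m) * X) * (1 - X) * G q m =
      G q m - X * G q m + C (q ^ m) * (X * G q m) - C (q ^ m) * (X * (X * G q m)) := by ring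
  rw [e1, e2] at h
  have h2 := congrArg (coeff (0 + 1)) h
  simp only [map_add, map_sub, coeff_C_mul] at h2
  simp only [coeff_succ_X_mul, coeff_rescale, coeff_zero_X_mul] at h2
  unfold G at h2
  simp only [coeff_mk] at h2
  simp only [zero_add, pow_one, pow_zero, mul_zero, one_mul, sub_zero] at h2
  linear_combination -h2

lemma D_zero (q : A) (m : ℕ) : D q m 0 = 1 := by
  unfold D
  simp

/-- `β_n = q^(mn) D_{1/q}(m,n)` -/
def Bt (q r : A) (m n : ℕ) : A := q ^ (m * n) * D r m n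

lemma Bt_rec {q r : A} (hr : ∀ n : ℕ, 1 ≤ n → r ^ n ≠ 1) (hqr : q * r = 1) (m n : ℕ) :
    (1 - q ^ (n + 2)) * Bt q r m (n + 2) =
      ((1 - q ^ (m + 1)) + q ^ (n + 2) * (1 - q ^ m)) * Bt q r m (n + 1) +
        q ^ (m + 1) * (1 - q ^ (n + 1)) * Bt q r m n := by
  have h := D_rec hr m n
  unfold Bt
  have e1 : q ^ (m * (n + 2)) = q ^ (m * n) * q ^ m * q ^ m := by ring
  have e2 : q ^ (m * (n + 1)) = q ^ (m * n) * q ^ m := by ring
  have e3 : q ^ (n + 2) = q ^ (n + 1) * q := by ring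
  have e4 : r ^ (n + 2) = r ^ (n + 1) * r := by ring
  have e5 : q ^ (m + 1) = q ^ m * q := by ring
  have e6 : r ^ (m + 1) = r ^ m * r := by ring
  rw [e4, e6] at h
  rw [e1, e2, e3, e5]
  have hQ : q ^ (n + 1) * r ^ (n + 1) = 1 := by rw [← mul_pow, hqr, one_pow]
  have hM : q ^ m * r ^ m = 1 := by rw [← mul_pow, hqr, one_pow]
  generalize q ^ (n + 1) = Q at *
  generalize r ^ (n + 1) = R at *
  generalize q ^ m = M at *
  generalize r ^ m = N at *
  generalize q ^ (m * n) = W at *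
  generalize D r m (n + 2) = b2 at *
  generalize D r m (n + 1) = b1 at *
  generalize D r m n = b0 at *
  linear_combination (-Q * q * W * M * M) * h
    - W * M * M * b2 * (q * r * hQ + hqr)
    - W * M * b1 * (q * M * hQ - (q * r * M * N * hQ + M * N * hqr + hM) - Q * q * hM)
    - W * M * q * b0 * (Q * hM - (M * N * hQ + hM))

lemma Bt_one {q r : A} (hr : ∀ n : ℕ, 1 ≤ n → r ^ n ≠ 1) (hqr : q * r = 1) (m : ℕ) :
    (1 - q) * Bt q r m 1 = ((1 - q ^ (m + 1)) + q * (1 - q ^ m)) * Bt q r m 0 := by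
  have h := D_one hr m
  unfold Bt
  rw [D_zero] at *
  have e5 : q ^ (m + 1) = q ^ m * q := by ring
  have e6 : r ^ (m + 1) = r ^ m * r := by ring
  rw [e6] at h
  rw [e5]
  have hM : q ^ m * r ^ m = 1 := by rw [← mul_pow, hqr, one_pow]
  simp only [mul_one, mul_zero, pow_zero]
  generalize q ^ m = M at *
  generalize r ^ m = N at *
  generalize D r m 1 = b1 at *
  linear_combination (-q * M) * h - M * b1 * hqr + (M * N * hqr + hM) + q * hM

/-- the telescoping expression at `n + 1` -/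
def Z (q r : A) (m n : ℕ) : A :=
  (1 - q ^ (n + 1)) ^ 2 * (-(1 - q) * D q m (n + 1) * Bt q r m (n + 1)
    + ((1 - q ^ (m + 1)) + q * (1 - q ^ m)) * D q m (n + 1) * Bt q r m n
    + ((1 - q ^ (m + 1)) + (1 - q ^ m)) * D q m n * Bt q r m (n + 1)
    - (1 - q) * q ^ m * D q m n * Bt q r m n)

lemma Z_step {q r : A} (hq : ∀ n : ℕ, 1 ≤ n → q ^ n ≠ 1) (hr : ∀ n : ℕ, 1 ≤ n → r ^ n ≠ 1)
    (hqr : q * r = 1) (m n : ℕ) :
    Z q r m (n + 1) = q ^ (m + 1) * Z q r m n +
      2 * (1 + q) * (1 - q ^ m) * (1 - q ^ (m + 1)) * (1 - q ^ (2 * (n + 1) + 1)) *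
        D q m (n + 1) * Bt q r m (n + 1) := by
  have hA := D_rec hq m n
  have hB := Bt_rec hr hqr m n
  unfold Z
  have e3 : q ^ (n + 1 + 1) = q ^ (n + 1) * q := by ring
  have e3' : q ^ (n + 2) = q ^ (n + 1) * q := by ring
  have e5 : q ^ (m + 1) = q ^ m * q := by ring
  have e7 : q ^ (2 * (n + 1) + 1) = q ^ (n + 1) * q ^ (n + 1) * q := by ring
  rw [e3, e5, e7]
  rw [e3', e5] at hA hB
  rw [show n + 1 + 1 = n + 2 by rfl]
  generalize q ^ (n + 1) = Q at *
  generalize q ^ m = M at *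
  generalize D q m (n + 2) = a2 at *
  generalize D q m (n + 1) = a1 at *
  generalize D q m n = a0 at *
  generalize Bt q r m (n + 2) = b2 at *
  generalize Bt q r m (n + 1) = b1 at *
  generalize Bt q r m n = b0 at *
  have e : (1 - Q * q) ^ 2 * (-(1 - q) * a2 * b2 + ((1 - M * q) + q * (1 - M)) * a2 * b1
      + ((1 - M * q) + (1 - M)) * a1 * b2 - (1 - q) * M * a1 * b1) =
      -(1 - q) * ((1 - Q * q) * a2) * ((1 - Q * q) * b2)
      + ((1 - M * q) + q * (1 - M)) * ((1 - Q * q) * a2) * ((1 - Q * q) * b1)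
      + ((1 - M * q) + (1 - M)) * ((1 - Q * q) * a1) * ((1 - Q * q) * b2)
      - (1 - q) * M * (1 - Q * q) ^ 2 * a1 * b1 := by ring
  rw [e, hA, hB]
  ring

lemma tele {q r : A} (hq : ∀ n : ℕ, 1 ≤ n → q ^ n ≠ 1) (hr : ∀ n : ℕ, 1 ≤ n → r ^ n ≠ 1)
    (hqr : q * r = 1) (m n : ℕ) :
    2 * (1 + q) * (1 - q ^ m) * (1 - q ^ (m + 1)) * r ^ (m + 1) *
      ∑ j ∈ range (n + 1), (1 - q ^ (2 * j + 1)) * (r ^ (m + 1)) ^ j * D q m j * Bt q r m j =
      (r ^ (m + 1)) ^ (n + 1) * Z q r m n := by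
  induction n with
  | zero =>
    have hA := D_one hq m
    have hB := Bt_one hr hqr m
    have hb0 : Bt q r m 0 = 1 := by unfold Bt; rw [D_zero]; simp
    rw [hb0] at hB
    rw [D_zero] at hA
    simp only [zero_add, sum_range_one, mul_zero, pow_zero, pow_one, D_zero, hb0, mul_one]
    unfold Z
    simp only [zero_add, pow_one, D_zero, hb0, mul_one]
    have e5 : q ^ (m + 1) = q ^ m * q := by ring
    rw [e5] at hA hB ⊢
    generalize r ^ (m + 1) = w at *
    generalize q ^ m = M at *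
    generalize D q m 1 = a1 at *
    generalize Bt q r m 1 = b1 at *
    have e : (1 - q) ^ 2 * (-(1 - q) * a1 * b1 + ((1 - M * q) + q * (1 - M)) * a1
        + ((1 - M * q) + (1 - M)) * b1 - (1 - q) * M) =
        (1 - q) * (-((1 - q) * a1) * ((1 - q) * b1) + ((1 - M * q) + q * (1 - M)) * ((1 - q) * a1)
        + ((1 - M * q) + (1 - M)) * ((1 - q) * b1) - (1 - q) ^ 2 * M) := by ring
    rw [e, hA, hB]
    ring
  | succ n ih =>
    rw [sum_range_succ, mul_add, ih, Z_step hq hr hqr]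
    have hw : r ^ (m + 1) * q ^ (m + 1) = 1 := by rw [← mul_pow, mul_comm r q, hqr, one_pow]
    rw [pow_succ (r ^ (m + 1)) (n + 1)]
    generalize r ^ (m + 1) = w at *
    generalize q ^ (m + 1) = c at *
    linear_combination (-(w ^ (n + 1)) * Z q r m n) * hw

/-- the integral form of the telescoped sum -/
def Y (q r : A) (m n : ℕ) : A :=
  - D q m (n + 1) * Bt q r m (n + 1)
    + (qi q (m + 1) + q * qi q m) * D q m (n + 1) * Bt q r m n
    + (qi q (m + 1) + qi q m) * D q m n * Bt q r m (n + 1)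
    - q ^ m * D q m n * Bt q r m n

lemma closed {q r : A} (hq : ∀ n : ℕ, 1 ≤ n → q ^ n ≠ 1) (hr : ∀ n : ℕ, 1 ≤ n → r ^ n ≠ 1)
    (hqr : q * r = 1) (m n : ℕ) :
    2 * (1 + q) * qi q m * qi q (m + 1) * r ^ (m + 1) *
      ∑ j ∈ range (n + 1), qi q (2 * j + 1) * r ^ j * D q m j * D r m j =
      (r ^ (m + 1)) ^ (n + 1) * qi q (n + 1) ^ 2 * Y q r m n := by
  have h := tele hq hr hqr m n
  have h1 : (1 - q) ≠ 0 := by
    have := hq 1 le_rfl
    rw [pow_one] at this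
    exact sub_ne_zero.mpr this.symm
  have hs : ∑ j ∈ range (n + 1), (1 - q ^ (2 * j + 1)) * (r ^ (m + 1)) ^ j * D q m j * Bt q r m j =
      (1 - q) * ∑ j ∈ range (n + 1), qi q (2 * j + 1) * r ^ j * D q m j * D r m j := by
    rw [mul_sum]
    apply sum_congr rfl
    intro j _
    rw [← qi_mul]
    unfold Bt
    have e : (r ^ (m + 1)) ^ j * q ^ (m * j) = r ^ j := by
      have : (r ^ (m + 1)) ^ j = r ^ j * r ^ (m * j) := by ring
      rw [this, mul_assoc, ← mul_pow, mul_comm r q, hqr, one_pow, mul_one]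
    calc (1 - q) * qi q (2 * j + 1) * (r ^ (m + 1)) ^ j * D q m j * (q ^ (m * j) * D r m j)
        = (1 - q) * qi q (2 * j + 1) * ((r ^ (m + 1)) ^ j * q ^ (m * j)) * D q m j * D r m j := by ring
      _ = _ := by rw [e]; ring
  rw [hs, ← qi_mul, ← qi_mul] at h
  unfold Z at h
  rw [← qi_mul, ← qi_mul, ← qi_mul] at h
  apply mul_left_cancel₀ (pow_ne_zero 3 h1)
  unfold Y
  linear_combination h

end dom

section maps

variable {A B : Type*} [CommRing A] [IsDomain A] [CommRing B] [IsDomain B]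

open PowerSeries in
lemma G_mul_Q_map (f : A →+* B) {q : A} (hq : ∀ n : ℕ, 1 ≤ n → q ^ n ≠ 1) (m : ℕ) :
    G (f q) m * Q (f q) (m + 1) = N (f q) m := by
  have h := congrArg (PowerSeries.map f) (G_mul_Q hq m)
  rw [map_mul] at h
  have hG : PowerSeries.map f (G q m) = G (f q) m := by
    ext n
    unfold G
    rw [coeff_map, coeff_mk, coeff_mk, map_D]
  have hQ : PowerSeries.map f (Q q (m + 1)) = Q (f q) (m + 1) := by
    unfold Q
    rw [map_prod]
    apply prod_congr rfl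
    intro i _
    rw [map_sub, map_one, map_mul, map_C, map_X, map_pow]
  have hN : PowerSeries.map f (N q m) = N (f q) m := by
    unfold N
    rw [map_prod]
    apply prod_congr rfl
    intro i _
    rw [map_add, map_one, map_mul, map_C, map_X, map_pow]
  rw [hG, hQ, hN] at h
  exact h

lemma prod_range_root {R : Type*} [CommRing R] [IsDomain R] {ζ : R} {n : ℕ} (hpos : 0 < n)
    (h : IsPrimitiveRoot ζ n) (x y : R) :
    ∏ i ∈ range n, (x - ζ ^ i * y) = x ^ n - y ^ n := by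
  classical
  rw [h.pow_sub_pow_eq_prod_sub_mul x y hpos]
  have himg : Polynomial.nthRootsFinset n (1 : R) = (range n).image (fun i => ζ ^ i) := by
    ext z
    rw [Polynomial.mem_nthRootsFinset hpos, mem_image]
    constructor
    · intro hz
      have : NeZero n := ⟨by omega⟩
      obtain ⟨i, hi, rfl⟩ := h.eq_pow_of_pow_eq_one hz
      exact ⟨i, mem_range.mpr hi, rfl⟩
    · rintro ⟨i, _, rfl⟩
      rw [← pow_mul, mul_comm, pow_mul, h.pow_eq_one, one_pow]
  rw [himg, prod_image]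
  intro i hi j hj hij
  exact h.pow_inj (mem_range.mp hi) (mem_range.mp hj) hij

end maps

section field

variable {K : Type*} [Field K]

open PowerSeries in
lemma prim_C {ξ : K} {p : ℕ} (h : IsPrimitiveRoot ξ p) : IsPrimitiveRoot (C ξ : K⟦X⟧) p :=
  h.map_of_injective (f := (C : K →+* K⟦X⟧)) (C_injective)

open PowerSeries in
lemma Q_p {ξ : K} {p : ℕ} (hp : 0 < p) (h : IsPrimitiveRoot ξ p) : Q ξ p = 1 - X ^ p := by
  have := prod_range_root hp (prim_C h) 1 X
  rw [one_pow] at this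
  rw [← this]
  unfold Q
  apply prod_congr rfl
  intro i _
  rw [map_pow]

open PowerSeries in
lemma N_p {ξ : K} {p : ℕ} (hp : Odd p) (h : IsPrimitiveRoot ξ p) : N ξ p = 1 + X ^ p := by
  have := prod_range_root hp.pos (prim_C h) 1 (-X)
  rw [one_pow, hp.neg_pow, sub_neg_eq_add] at this
  rw [← this]
  unfold N
  apply prod_congr rfl
  intro i _
  rw [map_pow]
  ring

open PowerSeries in
lemma Q_pM {ξ : K} {p : ℕ} (hp : 0 < p) (h : IsPrimitiveRoot ξ p) (M : ℕ) :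
    Q ξ (p * M) = (1 - X ^ p) ^ M := by
  induction M with
  | zero => simp [Q]
  | succ M ih =>
    rw [pow_succ, ← ih, ← Q_p hp h]
    unfold Q
    rw [mul_add, mul_one, prod_range_add]
    congr 1
    apply prod_congr rfl
    intro i _
    rw [pow_add, pow_mul, h.pow_eq_one, one_pow, one_mul]

open PowerSeries in
lemma N_pM {ξ : K} {p : ℕ} (hp : Odd p) (h : IsPrimitiveRoot ξ p) (M : ℕ) :
    N ξ (p * M) = (1 + X ^ p) ^ M := by
  induction M with
  | zero => simp [N]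
  | succ M ih =>
    rw [pow_succ, ← ih, ← N_p hp h]
    unfold N
    rw [mul_add, mul_one, prod_range_add]
    congr 1
    apply prod_congr rfl
    intro i _
    rw [pow_add, pow_mul, h.pow_eq_one, one_pow, one_mul]

open PowerSeries in
lemma dvd_aux (p M : ℕ) (hp : 1 ≤ p) (ε : K⟦X⟧) :
    (X : K⟦X⟧) ^ (p + 1) ∣ (1 + ε * X ^ p) ^ M - (1 + (M : K⟦X⟧) * ε * X ^ p) := by
  induction M with
  | zero => simp
  | succ M ih =>
    obtain ⟨Z, hZ⟩ := ih
    refine ⟨Z * (1 + ε * X ^ p) + (M : K⟦X⟧) * ε ^ 2 * X ^ (p - 1), ?_⟩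
    have e : (X : K⟦X⟧) ^ (p + 1) * X ^ (p - 1) = X ^ p * X ^ p := by
      rw [← pow_add, ← pow_add]; congr 1; omega
    push_cast
    rw [pow_succ (1 + ε * X ^ p) M]
    linear_combination (1 + ε * X ^ p) * hZ - (M : K⟦X⟧) * ε ^ 2 * e

open PowerSeries in
lemma g_coeff (p M : ℕ) (hp : 1 ≤ p) (g : K⟦X⟧) (h : g * (1 - X ^ p) ^ M = (1 + X ^ p) ^ M) :
    (∀ n, n < p + 1 → coeff n g = coeff n (1 + (2 * M : K⟦X⟧) * X ^ p)) := by
  obtain ⟨Z1, h1⟩ := dvd_aux (K := K) p M hp (-1)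
  obtain ⟨Z2, h2⟩ := dvd_aux (K := K) p M hp 1
  have e0 : (1 + (-1 : K⟦X⟧) * X ^ p) = 1 - X ^ p := by ring
  rw [e0] at h1
  rw [one_mul] at h2
  have e : (X : K⟦X⟧) ^ (p + 1) * X ^ (p - 1) = X ^ p * X ^ p := by
    rw [← pow_add, ← pow_add]; congr 1; omega
  have hd : (X : K⟦X⟧) ^ (p + 1) ∣ (g - (1 + (2 * M : K⟦X⟧) * X ^ p)) * (1 - X ^ p) ^ M := by
    refine ⟨Z2 - (1 + (2 * M : K⟦X⟧) * X ^ p) * Z1 + 2 * (M : K⟦X⟧) ^ 2 * X ^ (p - 1), ?_⟩
    linear_combination h + h2 - (1 + (2 * M : K⟦X⟧) * X ^ p) * h1 - 2 * (M : K⟦X⟧) ^ 2 * e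
  have hu : IsUnit ((1 - X ^ p : K⟦X⟧) ^ M) := by
    apply IsUnit.pow
    rw [isUnit_iff_constantCoeff]
    have : constantCoeff (1 - X ^ p : K⟦X⟧) = 1 := by
      rw [map_sub, map_one, map_pow, constantCoeff_X, zero_pow (by omega), sub_zero]
    rw [this]
    exact isUnit_one
  rw [hu.dvd_mul_right, X_pow_dvd_iff] at hd
  intro n hn
  have := hd n hn
  rw [map_sub, sub_eq_zero] at this
  exact this

open PowerSeries in
lemma coeff_rhs (p M n : ℕ) (_ : 1 ≤ p) : coeff n (1 + (2 * M : K⟦X⟧) * X ^ p) =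
    (if n = 0 then 1 else 0) + (if n = p then 2 * (M : K) else 0) := by
  have e : (2 * M : K⟦X⟧) = C (2 * (M : K)) := by
    rw [map_mul, map_natCast]
    congr 1
  rw [e, map_add, coeff_C_mul, coeff_X_pow, coeff_one]
  split_ifs <;> simp

open PowerSeries in
/-- first case: `m = p M` -/
lemma case_one {ξ : K} {p : ℕ} (hp : Odd p) (h : IsPrimitiveRoot ξ p) (m M : ℕ) (hm : m = p * M)
    (hG : G ξ m * Q ξ (m + 1) = N ξ m) : D ξ m p - D ξ m (p - 1) = 2 * (M : K) := by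
  have hp1 : 1 ≤ p := hp.pos
  have hQ : Q ξ (m + 1) = (1 - X ^ p) ^ M * (1 - X) := by
    have : Q ξ (m + 1) = Q ξ m * (1 - C (ξ ^ m) * X) := by
      unfold Q; rw [prod_range_succ]
    rw [this, hm, Q_pM hp.pos h, pow_mul, h.pow_eq_one, one_pow, map_one, one_mul]
  have hN : N ξ m = (1 + X ^ p) ^ M := by rw [hm, N_pM hp h]
  rw [hQ, hN] at hG
  have hg := g_coeff p M hp1 (G ξ m * (1 - X)) (by rw [← hG]; ring) p (by omega)
  rw [coeff_rhs p M p hp1, if_neg (by omega), if_pos rfl, zero_add, mul_sub, mul_one, map_sub] at hg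
  obtain ⟨l, rfl⟩ : ∃ l, p = l + 1 := ⟨p - 1, by omega⟩
  rw [coeff_succ_mul_X] at hg
  unfold G at hg
  rw [coeff_mk, coeff_mk] at hg
  exact hg

open PowerSeries in
/-- second case: `m + 1 = p M` -/
lemma case_two {ξ : K} {p : ℕ} (hp : Odd p) (h : IsPrimitiveRoot ξ p) (m M : ℕ) (hm : m + 1 = p * M)
    (hG : G ξ m * Q ξ (m + 1) = N ξ m) :
    D ξ m (p - 1) = (ξ ^ m) ^ (p - 1) ∧ D ξ m p = 2 * (M : K) - 1 := by
  have hp1 : 1 ≤ p := hp.pos
  have hp2 : p ≠ 1 ∨ p = 1 := by omega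
  have hQ : Q ξ (m + 1) = (1 - X ^ p) ^ M := by rw [hm, Q_pM hp.pos h]
  have hN : N ξ m * (1 + C (ξ ^ m) * X) = (1 + X ^ p) ^ M := by
    have : N ξ (m + 1) = N ξ m * (1 + C (ξ ^ m) * X) := by
      unfold N; rw [prod_range_succ]
    rw [← this, hm, N_pM hp h]
  rw [hQ] at hG
  have hg := g_coeff p M hp1 (G ξ m * (1 + C (ξ ^ m) * X)) (by rw [← hN, ← hG]; ring)
  have hrec : ∀ n, n + 1 < p + 1 → D ξ m (n + 1) + ξ ^ m * D ξ m n =
      if n + 1 = p then 2 * (M : K) else 0 := by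
    intro n hn
    have := hg (n + 1) hn
    rw [coeff_rhs p M (n + 1) hp1, if_neg (by omega), zero_add] at this
    have e : G ξ m * (1 + C (ξ ^ m) * X) = G ξ m + C (ξ ^ m) * (G ξ m * X) := by ring
    rw [e, map_add, coeff_C_mul, coeff_succ_mul_X] at this
    unfold G at this
    rw [coeff_mk, coeff_mk] at this
    exact this
  have hlow : ∀ n, n < p → D ξ m n = (-(ξ ^ m)) ^ n := by
    intro n
    induction n with
    | zero => intro _; rw [D_zero, pow_zero]
    | succ n ih =>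
      intro hn
      have h1 := hrec n (by omega)
      rw [if_neg (by omega), ih (by omega)] at h1
      rw [pow_succ]
      linear_combination h1
  have hev : Even (p - 1) := by
    obtain ⟨k, hk⟩ := hp
    exact ⟨k, by omega⟩
  have h1 : D ξ m (p - 1) = (ξ ^ m) ^ (p - 1) := by
    rw [hlow (p - 1) (by omega), hev.neg_pow]
  refine ⟨h1, ?_⟩
  have h2 := hrec (p - 1) (by omega)
  rw [if_pos (by omega), h1] at h2
  have e1 : p - 1 + 1 = p := by omega
  rw [e1] at h2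
  have e2 : ξ ^ m * (ξ ^ m) ^ (p - 1) = 1 := by
    rw [← pow_succ', e1, ← pow_mul, mul_comm, pow_mul, h.pow_eq_one, one_pow]
  rw [e2] at h2
  linear_combination h2

end field

section final

open LaurentPolynomial

/-- the ring of the problem -/
abbrev L : Type := LaurentPolynomial ℤ

lemma T_pow_ne (k : ℤ) (hk : k ≠ 0) : (T k : L) ≠ 1 := by
  intro h
  have h2 := congrArg (fun f : L => f.coeff 0) h
  rw [← T_zero (R := ℤ)] at h2
  simp only [T_apply] at h2
  rw [if_neg hk] at h2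
  simp at h2

lemma q_pow_ne (n : ℕ) (hn : 1 ≤ n) : (T 1 : L) ^ n ≠ 1 := by
  rw [T_pow]
  apply T_pow_ne
  simp
  omega

lemma r_pow_ne (n : ℕ) (hn : 1 ≤ n) : (T (-1) : L) ^ n ≠ 1 := by
  rw [T_pow]
  apply T_pow_ne
  simp
  omega

lemma q_mul_r : (T 1 : L) * T (-1) = 1 := by
  rw [← T_add]
  simp

variable {p : ℕ}

/-- evaluation at a unit -/
noncomputable def ev (u : ℂˣ) : L →+* ℂ := LaurentPolynomial.eval₂ (Int.castRingHom ℂ) u

lemma ev_q (u : ℂˣ) : ev u (T 1) = (u : ℂ) := by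
  unfold ev
  rw [LaurentPolynomial.eval₂_T]
  simp

lemma ev_r (u : ℂˣ) : ev u (T (-1)) = ((u⁻¹ : ℂˣ) : ℂ) := by
  unfold ev
  rw [LaurentPolynomial.eval₂_T]
  simp

lemma qi_T (hp : p.Prime) : (qi (T 1 : L) p) = Polynomial.toLaurent (Polynomial.cyclotomic p ℤ) := by
  have := Fact.mk hp
  rw [Polynomial.cyclotomic_prime, map_sum]
  unfold qi
  apply sum_congr rfl
  intro i _
  rw [Polynomial.toLaurent_X_pow, T_pow]
  simp

lemma phi_dvd (hp : p.Prime) (u : ℂˣ) (hu : IsPrimitiveRoot (u : ℂ) p) (f : L) :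
    qi (T 1 : L) p ∣ f ↔ ev u f = 0 := by
  constructor
  · rintro ⟨g, rfl⟩
    rw [map_mul, map_qi, ev_q]
    have h1 := qi_mul (u : ℂ) p
    rw [hu.pow_eq_one, sub_self] at h1
    have h2 : (1 - (u : ℂ)) ≠ 0 := sub_ne_zero.mpr (hu.ne_one hp.one_lt).symm
    have h3 : qi (u : ℂ) p = 0 := by
      rcases mul_eq_zero.mp h1 with h | h
      · exact absurd h h2
      · exact h
    rw [h3, zero_mul]
  · intro hf
    obtain ⟨n, f', hf'⟩ := LaurentPolynomial.exists_T_pow f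
    have h1 : ev u (Polynomial.toLaurent f') = 0 := by rw [hf', map_mul, hf, zero_mul]
    unfold ev at h1
    rw [LaurentPolynomial.eval₂_toLaurent] at h1
    have h2 : Polynomial.aeval (u : ℂ) f' = 0 := by
      rw [Polynomial.aeval_def]
      exact h1
    have hint : IsIntegral ℤ (u : ℂ) := hu.isIntegral hp.pos
    have h3 : minpoly ℤ (u : ℂ) ∣ f' := minpoly.isIntegrallyClosed_dvd hint h2
    rw [← Polynomial.cyclotomic_eq_minpoly hu hp.pos] at h3
    have h4 := map_dvd (Polynomial.toLaurent (R := ℤ)) h3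
    rw [← qi_T hp, hf'] at h4
    exact (LaurentPolynomial.isUnit_T (R := ℤ) (n : ℤ)).dvd_mul_right.mp h4

lemma phi_prime (hp : p.Prime) (u : ℂˣ) (hu : IsPrimitiveRoot (u : ℂ) p) :
    Prime (qi (T 1 : L) p) := by
  refine ⟨?_, ?_, ?_⟩
  · rw [qi_T hp, Polynomial.toLaurent_ne_zero]
    exact Polynomial.cyclotomic_ne_zero p ℤ
  · intro h
    have h1 : qi (T 1 : L) p ∣ 1 := h.dvd
    rw [phi_dvd hp u hu, map_one] at h1
    exact one_ne_zero h1
  · intro a b hab
    rw [phi_dvd hp u hu, map_mul] at hab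
    rcases mul_eq_zero.mp hab with h | h
    · left; exact (phi_dvd hp u hu a).mpr h
    · right; exact (phi_dvd hp u hu b).mpr h

lemma qi_ne (u : ℂ) (hu : IsPrimitiveRoot u p) (m : ℕ) (hm : ¬ p ∣ m) : qi u m ≠ 0 := by
  intro h
  have h1 := qi_mul u m
  rw [h, mul_zero] at h1
  apply hm
  rw [← hu.pow_eq_one_iff_dvd]
  exact (sub_eq_zero.mp h1.symm).symm

lemma qi_factor (q : L) (hq : ∀ n : ℕ, 1 ≤ n → q ^ n ≠ 1) (p M : ℕ) :
    qi q (p * M) = qi q p * qi (q ^ p) M := by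
  have h1 : (1 - q) ≠ 0 := by
    have := hq 1 le_rfl
    rw [pow_one] at this
    exact sub_ne_zero.mpr this.symm
  apply mul_left_cancel₀ h1
  rw [qi_mul, ← mul_assoc, qi_mul, qi_mul, pow_mul]

/-- the sum of the problem -/
noncomputable def S (p m : ℕ) : L :=
  ∑ j ∈ range p, qi (T 1 : L) (2 * j + 1) * T (-(j : ℤ)) * D (T 1 : L) m j * D (T (-1) : L) m j

lemma S_eq (p m : ℕ) : S p m =
    ∑ j ∈ range p, qi (T 1 : L) (2 * j + 1) * (T (-1) : L) ^ j * D (T 1 : L) m j * D (T (-1) : L) m j := by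
  unfold S
  apply sum_congr rfl
  intro j _
  rw [T_pow]
  congr 3
  ring

lemma S_closed (hp : p.Prime) (m : ℕ) :
    2 * (1 + (T 1 : L)) * qi (T 1 : L) m * qi (T 1 : L) (m + 1) * (T (-1) : L) ^ (m + 1) * S p m =
      ((T (-1) : L) ^ (m + 1)) ^ p * qi (T 1 : L) p ^ 2 * Y (T 1 : L) (T (-1)) m (p - 1) := by
  have h := closed q_pow_ne r_pow_ne q_mul_r m (p - 1)
  have e : p - 1 + 1 = p := Nat.sub_add_cancel hp.one_lt.le
  rw [e] at h
  rw [S_eq, h]

lemma ev_S_c (u : ℂˣ) (n : ℕ) : ev u ((T (-1) : L) ^ n) = ((u⁻¹ : ℂˣ) : ℂ) ^ n := by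
  rw [map_pow, ev_r]

lemma ev_Y (u : ℂˣ) (m n : ℕ) : ev u (Y (T 1 : L) (T (-1)) m n) = Y (u : ℂ) ((u⁻¹ : ℂˣ) : ℂ) m n := by
  unfold Y Bt
  simp only [map_add, map_sub, map_mul, map_neg, map_pow, map_D, map_qi, ev_q, ev_r]

lemma one_add_ne (u : ℂ) (hp : p.Prime) (h2 : p ≠ 2) (hu : IsPrimitiveRoot u p) : 1 + u ≠ 0 := by
  intro h
  have h1 : u ^ 2 = 1 := by
    have : u = -1 := by linear_combination h
    rw [this]; norm_num
  rw [hu.pow_eq_one_iff_dvd] at h1
  exact h2 ((Nat.prime_dvd_prime_iff_eq hp Nat.prime_two).mp h1)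

lemma main_zero (hp : p.Prime) (h2 : p ≠ 2) (m : ℕ) (h : ¬ p ∣ m) (h' : ¬ p ∣ m + 1) :
    qi (T 1 : L) p ^ 2 ∣ S p m := by
  have hpr := Complex.isPrimitiveRoot_exp p hp.ne_zero
  obtain ⟨u, hu'⟩ : ∃ u : ℂˣ, (u : ℂ) = Complex.exp (2 * Real.pi * Complex.I / p) :=
    ⟨Units.mk0 _ (Complex.exp_ne_zero _), rfl⟩
  rw [← hu'] at hpr
  apply (phi_prime hp u hpr).pow_dvd_of_dvd_mul_left 2 (a := 2 * (1 + (T 1 : L)) * qi (T 1 : L) m *
    qi (T 1 : L) (m + 1) * (T (-1) : L) ^ (m + 1))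
  · rw [phi_dvd hp u hpr]
    simp only [map_mul, map_add, map_one, map_qi, ev_q, ev_S_c, map_ofNat]
    refine mul_ne_zero (mul_ne_zero (mul_ne_zero (mul_ne_zero two_ne_zero
      (one_add_ne _ hp h2 hpr)) (qi_ne _ hpr m h)) (qi_ne _ hpr (m + 1) h')) ?_
    exact pow_ne_zero _ (Units.ne_zero _)
  · rw [S_closed hp]
    exact ⟨((T (-1) : L) ^ (m + 1)) ^ p * Y (T 1 : L) (T (-1)) m (p - 1), by ring⟩

lemma Bt_val (u : ℂˣ) (hu : IsPrimitiveRoot (u : ℂ) p) (m : ℕ) :
    Bt (u : ℂ) ((u⁻¹ : ℂˣ) : ℂ) m p = D ((u⁻¹ : ℂˣ) : ℂ) m p := by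
  unfold Bt
  rw [mul_comm m p, pow_mul, hu.pow_eq_one, one_pow, one_mul]

lemma inv_prim (u : ℂˣ) (hu : IsPrimitiveRoot (u : ℂ) p) : IsPrimitiveRoot ((u⁻¹ : ℂˣ) : ℂ) p := by
  rw [Units.val_inv_eq_inv_val]
  exact hu.inv

lemma S_pM (hp : p.Prime) (h2 : p ≠ 2) (m M : ℕ) (hM : 1 ≤ M) (hm : m = p * M) :
    ∃ R : L, (1 - (T 1 : L) ^ 2) * R = T 1 * (1 - T (-(2 * m : ℤ))) ∧ qi (T 1 : L) p ^ 2 ∣ S p m - R := by
  have hodd : Odd p := hp.odd_of_ne_two h2
  have hpr := Complex.isPrimitiveRoot_exp p hp.ne_zero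
  obtain ⟨u, hu'⟩ : ∃ u : ℂˣ, (u : ℂ) = Complex.exp (2 * Real.pi * Complex.I / p) :=
    ⟨Units.mk0 _ (Complex.exp_ne_zero _), rfl⟩
  rw [← hu'] at hpr
  have hprime := phi_prime hp u hpr
  have hrm : (T (-(2 * m : ℤ)) : L) = (T (-1) : L) ^ (2 * m) := by
    rw [T_pow]; congr 1; push_cast; ring
  rw [hrm]
  have hqr : (T 1 : L) ^ m * (T (-1) : L) ^ m = 1 := by rw [← mul_pow, q_mul_r, one_pow]
  have h1q : (1 - (T 1 : L)) ≠ 0 := by
    have := q_pow_ne 1 le_rfl
    rw [pow_one] at this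
    exact sub_ne_zero.mpr this.symm
  have hR : (1 - (T 1 : L) ^ 2) * (-(T 1 * (T (-1) : L) ^ (2 * m)) * qi ((T 1 : L) ^ 2) m) =
      T 1 * (1 - (T (-1) : L) ^ (2 * m)) := by
    have h := qi_mul ((T 1 : L) ^ 2) m
    have e : ((T 1 : L) ^ 2) ^ m = ((T 1 : L) ^ m) ^ 2 := by rw [← pow_mul, ← pow_mul, mul_comm]
    have e2 : (T (-1) : L) ^ (2 * m) = ((T (-1) : L) ^ m) ^ 2 := by rw [← pow_mul, mul_comm]
    rw [e] at h
    rw [e2]
    generalize (T 1 : L) ^ m = a at *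
    generalize (T (-1) : L) ^ m = b at *
    linear_combination (-(T 1 * b ^ 2)) * h + (T 1 * (a * b + 1)) * hqr
  refine ⟨_, hR, ?_⟩
  generalize hRR : (-(T 1 * (T (-1) : L) ^ (2 * m)) * qi ((T 1 : L) ^ 2) m) = R at hR ⊢
  set Φ := qi (T 1 : L) p with hΦ
  set μ := qi ((T 1 : L) ^ p) M with hμ
  have hm1 : qi (T 1 : L) m = Φ * μ := by rw [hm]; exact qi_factor _ q_pow_ne p M
  have hΦ0 : Φ ≠ 0 := hprime.ne_zero
  -- the value of `(1+q) R`
  have hR2 : (1 + (T 1 : L)) * R = -(T 1 * (T (-1) : L) ^ (2 * m)) * (Φ * μ) * (1 + (T 1 : L) ^ m) := by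
    apply mul_left_cancel₀ h1q
    have h := qi_mul (T 1 : L) m
    rw [← hm1]
    have e2 : (T (-1) : L) ^ (2 * m) = ((T (-1) : L) ^ m) ^ 2 := by rw [← pow_mul, mul_comm]
    rw [e2] at hR ⊢
    generalize (T 1 : L) ^ m = a at *
    generalize (T (-1) : L) ^ m = b at *
    linear_combination hR + (T 1 * b ^ 2 * (1 + a)) * h - (T 1 * (a * b + 1)) * hqr
  have hcl := S_closed hp m
  rw [← hΦ, hm1] at hcl
  have hcl2 : 2 * (1 + (T 1 : L)) * μ * qi (T 1 : L) (m + 1) * (T (-1) : L) ^ (m + 1) * S p m =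
      ((T (-1) : L) ^ (m + 1)) ^ p * Φ * Y (T 1 : L) (T (-1)) m (p - 1) := by
    apply mul_left_cancel₀ hΦ0
    linear_combination hcl
  have key : 2 * (1 + (T 1 : L)) * μ * qi (T 1 : L) (m + 1) * (T (-1) : L) ^ (m + 1) * (S p m - R) =
      Φ * (((T (-1) : L) ^ (m + 1)) ^ p * Y (T 1 : L) (T (-1)) m (p - 1) +
        2 * μ ^ 2 * qi (T 1 : L) (m + 1) * (T (-1) : L) ^ (m + 1) * (T 1 * (T (-1) : L) ^ (2 * m)) *
          (1 + (T 1 : L) ^ m)) := by
    linear_combination hcl2 - (2 * μ * qi (T 1 : L) (m + 1) * (T (-1) : L) ^ (m + 1)) * hR2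
  have hum : (u : ℂ) ^ m = 1 := by rw [hm, pow_mul, hpr.pow_eq_one, one_pow]
  have hinv := inv_prim u hpr
  have hinvm : ((u⁻¹ : ℂˣ) : ℂ) ^ m = 1 := by rw [hm, pow_mul, hinv.pow_eq_one, one_pow]
  have huu : (u : ℂ) * ((u⁻¹ : ℂˣ) : ℂ) = 1 := by rw [← Units.val_mul]; simp
  have hu1 : (1 - (u : ℂ)) ≠ 0 := sub_ne_zero.mpr (hpr.ne_one hp.one_lt).symm
  have hqm : qi (u : ℂ) m = 0 := by
    have h := qi_mul (u : ℂ) m
    rw [hum, sub_self] at h
    exact (mul_eq_zero.mp h).resolve_left hu1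
  have hqm1 : qi (u : ℂ) (m + 1) = 1 := by
    apply mul_left_cancel₀ hu1
    rw [qi_mul, pow_succ, hum, one_mul, mul_one]
  have hμv : ev u μ = (M : ℂ) := by
    rw [hμ, map_qi, map_pow, ev_q, hpr.pow_eq_one]
    unfold qi
    simp
  apply hprime.pow_dvd_of_dvd_mul_left 2 (a := 2 * (1 + (T 1 : L)) * μ * qi (T 1 : L) (m + 1) *
    (T (-1) : L) ^ (m + 1))
  · rw [hΦ, phi_dvd hp u hpr]
    simp only [map_mul, map_add, map_one, map_qi, ev_q, ev_S_c, map_ofNat, hμv, hqm1]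
    refine mul_ne_zero (mul_ne_zero (mul_ne_zero (mul_ne_zero two_ne_zero
      (one_add_ne _ hp h2 hpr)) ?_) one_ne_zero) (pow_ne_zero _ (Units.ne_zero _))
    have : M ≠ 0 := by omega
    exact_mod_cast this
  · rw [key, sq]
    apply mul_dvd_mul_left
    rw [hΦ, phi_dvd hp u hpr]
    have hA : D (u : ℂ) m p - D (u : ℂ) m (p - 1) = 2 * (M : ℂ) := by
      apply case_one hodd hpr m M hm
      have := G_mul_Q_map (ev u) q_pow_ne m
      rw [ev_q] at this
      exact this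
    have hB : D ((u⁻¹ : ℂˣ) : ℂ) m p - D ((u⁻¹ : ℂˣ) : ℂ) m (p - 1) = 2 * (M : ℂ) := by
      apply case_one hodd hinv m M hm
      have := G_mul_Q_map (ev u) r_pow_ne m
      rw [ev_r] at this
      exact this
    have hY : ev u (Y (T 1 : L) (T (-1)) m (p - 1)) = -(4 * (M : ℂ) ^ 2) := by
      rw [ev_Y]
      unfold Y
      have e : p - 1 + 1 = p := Nat.sub_add_cancel hp.one_lt.le
      rw [e, Bt_val u hpr, hqm, hqm1, hum]
      have hb : Bt (u : ℂ) ((u⁻¹ : ℂˣ) : ℂ) m (p - 1) = D ((u⁻¹ : ℂˣ) : ℂ) m (p - 1) := by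
        unfold Bt
        rw [pow_mul, hum, one_pow, one_mul]
      rw [hb]
      linear_combination (-(D ((u⁻¹ : ℂˣ) : ℂ) m p - D ((u⁻¹ : ℂˣ) : ℂ) m (p - 1))) * hA
        - (2 * (M : ℂ)) * hB
    simp only [map_mul, map_add, map_one, map_pow, ev_q, ev_r, map_ofNat, hμv, map_qi, hqm1, hY]
    have e1 : (((u⁻¹ : ℂˣ) : ℂ) ^ (m + 1)) ^ p = 1 := by
      rw [← pow_mul, mul_comm, pow_mul, hinv.pow_eq_one, one_pow]
    have e2 : ((u⁻¹ : ℂˣ) : ℂ) ^ (m + 1) = ((u⁻¹ : ℂˣ) : ℂ) := by rw [pow_succ, hinvm, one_mul]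
    have e3 : ((u⁻¹ : ℂˣ) : ℂ) ^ (2 * m) = 1 := by rw [mul_comm, pow_mul, hinvm, one_pow]
    rw [e1, e2, e3, hum]
    linear_combination (4 * (M : ℂ) ^ 2) * huu

lemma S_pM' (hp : p.Prime) (h2 : p ≠ 2) (m M : ℕ) (hM : 1 ≤ M) (hm : m + 1 = p * M) :
    ∃ R : L, (1 - (T 1 : L) ^ 2) * R = T 1 * (1 - T 1 ^ (2 * m + 2)) ∧ qi (T 1 : L) p ^ 2 ∣ S p m - R := by
  have hodd : Odd p := hp.odd_of_ne_two h2
  have hpr := Complex.isPrimitiveRoot_exp p hp.ne_zero
  obtain ⟨u, hu'⟩ : ∃ u : ℂˣ, (u : ℂ) = Complex.exp (2 * Real.pi * Complex.I / p) :=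
    ⟨Units.mk0 _ (Complex.exp_ne_zero _), rfl⟩
  rw [← hu'] at hpr
  have hprime := phi_prime hp u hpr
  have h1q : (1 - (T 1 : L)) ≠ 0 := by
    have := q_pow_ne 1 le_rfl
    rw [pow_one] at this
    exact sub_ne_zero.mpr this.symm
  have hR : (1 - (T 1 : L) ^ 2) * (T 1 * qi ((T 1 : L) ^ 2) (m + 1)) =
      T 1 * (1 - T 1 ^ (2 * m + 2)) := by
    have h := qi_mul ((T 1 : L) ^ 2) (m + 1)
    have e : ((T 1 : L) ^ 2) ^ (m + 1) = (T 1 : L) ^ (2 * m + 2) := by rw [← pow_mul]; ring_nf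
    rw [e] at h
    linear_combination (T 1 : L) * h
  refine ⟨_, hR, ?_⟩
  generalize hRR : (T 1 * qi ((T 1 : L) ^ 2) (m + 1)) = R at hR ⊢
  set Φ := qi (T 1 : L) p with hΦ
  set μ := qi ((T 1 : L) ^ p) M with hμ
  have hm1 : qi (T 1 : L) (m + 1) = Φ * μ := by rw [hm]; exact qi_factor _ q_pow_ne p M
  have hΦ0 : Φ ≠ 0 := hprime.ne_zero
  have hR2 : (1 + (T 1 : L)) * R = T 1 * (Φ * μ) * (1 + (T 1 : L) ^ (m + 1)) := by
    apply mul_left_cancel₀ h1q
    have h := qi_mul (T 1 : L) (m + 1)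
    rw [← hm1]
    have e2 : (T 1 : L) ^ (2 * m + 2) = ((T 1 : L) ^ (m + 1)) ^ 2 := by rw [← pow_mul]; ring_nf
    rw [e2] at hR
    generalize (T 1 : L) ^ (m + 1) = a at *
    linear_combination hR - (T 1 * (1 + a)) * h
  have hcl := S_closed hp m
  rw [← hΦ, hm1] at hcl
  have hcl2 : 2 * (1 + (T 1 : L)) * qi (T 1 : L) m * μ * (T (-1) : L) ^ (m + 1) * S p m =
      ((T (-1) : L) ^ (m + 1)) ^ p * Φ * Y (T 1 : L) (T (-1)) m (p - 1) := by
    apply mul_left_cancel₀ hΦ0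
    linear_combination hcl
  have key : 2 * (1 + (T 1 : L)) * qi (T 1 : L) m * μ * (T (-1) : L) ^ (m + 1) * (S p m - R) =
      Φ * (((T (-1) : L) ^ (m + 1)) ^ p * Y (T 1 : L) (T (-1)) m (p - 1) -
        2 * qi (T 1 : L) m * μ ^ 2 * (T (-1) : L) ^ (m + 1) * T 1 * (1 + (T 1 : L) ^ (m + 1))) := by
    linear_combination hcl2 - (2 * qi (T 1 : L) m * μ * (T (-1) : L) ^ (m + 1)) * hR2
  have hum : (u : ℂ) ^ (m + 1) = 1 := by rw [hm, pow_mul, hpr.pow_eq_one, one_pow]
  have hinv := inv_prim u hpr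
  have hinvm : ((u⁻¹ : ℂˣ) : ℂ) ^ (m + 1) = 1 := by rw [hm, pow_mul, hinv.pow_eq_one, one_pow]
  have huu : (u : ℂ) * ((u⁻¹ : ℂˣ) : ℂ) = 1 := by rw [← Units.val_mul]; simp
  have hu1 : (1 - (u : ℂ)) ≠ 0 := sub_ne_zero.mpr (hpr.ne_one hp.one_lt).symm
  have hqm1 : qi (u : ℂ) (m + 1) = 0 := by
    have h := qi_mul (u : ℂ) (m + 1)
    rw [hum, sub_self] at h
    exact (mul_eq_zero.mp h).resolve_left hu1
  have hqm : qi (u : ℂ) m = - (u : ℂ) ^ m := by
    have h : qi (u : ℂ) (m + 1) = qi (u : ℂ) m + (u : ℂ) ^ m := by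
      unfold qi; rw [sum_range_succ]
    rw [hqm1] at h
    linear_combination -h
  have hμv : ev u μ = (M : ℂ) := by
    rw [hμ, map_qi, map_pow, ev_q, hpr.pow_eq_one]
    unfold qi
    simp
  have hpm : ¬ p ∣ m := by
    intro h
    have h3 : p ∣ m + 1 := ⟨M, hm⟩
    have h4 : p ∣ 1 := (Nat.dvd_add_right h).mp h3
    exact hp.one_lt.ne' (Nat.dvd_one.mp h4)
  apply hprime.pow_dvd_of_dvd_mul_left 2 (a := 2 * (1 + (T 1 : L)) * qi (T 1 : L) m * μ *
    (T (-1) : L) ^ (m + 1))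
  · rw [hΦ, phi_dvd hp u hpr]
    simp only [map_mul, map_add, map_one, map_qi, ev_q, ev_S_c, map_ofNat, hμv]
    refine mul_ne_zero (mul_ne_zero (mul_ne_zero (mul_ne_zero two_ne_zero
      (one_add_ne _ hp h2 hpr)) (qi_ne _ hpr m hpm)) ?_) (pow_ne_zero _ (Units.ne_zero _))
    have : M ≠ 0 := by omega
    exact_mod_cast this
  · rw [key, sq]
    apply mul_dvd_mul_left
    rw [hΦ, phi_dvd hp u hpr]
    obtain ⟨hA1, hA2⟩ : D (u : ℂ) m (p - 1) = ((u : ℂ) ^ m) ^ (p - 1) ∧ D (u : ℂ) m p = 2 * (M : ℂ) - 1 := by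
      apply case_two hodd hpr m M hm
      have := G_mul_Q_map (ev u) q_pow_ne m
      rw [ev_q] at this
      exact this
    obtain ⟨hB1, hB2⟩ : D ((u⁻¹ : ℂˣ) : ℂ) m (p - 1) = (((u⁻¹ : ℂˣ) : ℂ) ^ m) ^ (p - 1) ∧
        D ((u⁻¹ : ℂˣ) : ℂ) m p = 2 * (M : ℂ) - 1 := by
      apply case_two hodd hinv m M hm
      have := G_mul_Q_map (ev u) r_pow_ne m
      rw [ev_r] at this
      exact this
    have hup : (u : ℂ) * (u : ℂ) ^ m = 1 := by rw [← pow_succ', hum]
    have e : p - 1 + 1 = p := Nat.sub_add_cancel hp.one_lt.le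
    have ha : (u : ℂ) ^ m * ((u : ℂ) ^ m) ^ (p - 1) = 1 := by
      rw [← pow_succ', e, ← pow_mul, mul_comm m p, pow_mul, hpr.pow_eq_one, one_pow]
    have hb : Bt (u : ℂ) ((u⁻¹ : ℂˣ) : ℂ) m (p - 1) = 1 := by
      unfold Bt
      rw [hB1, pow_mul, ← mul_pow, ← mul_pow, huu, one_pow, one_pow]
    have hY : ev u (Y (T 1 : L) (T (-1)) m (p - 1)) = -(4 * (M : ℂ) ^ 2) := by
      rw [ev_Y]
      unfold Y
      rw [e, Bt_val u hpr, hb, hqm, hqm1, hA1, hA2, hB2]
      generalize ((u : ℂ) ^ m) ^ (p - 1) = t at *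
      generalize (u : ℂ) ^ m = z at *
      linear_combination (-(2 * (M : ℂ) - 1)) * hup - (2 * (M : ℂ)) * ha
    simp only [map_mul, map_add, map_sub, map_one, map_pow, ev_q, ev_r, map_ofNat, hμv, map_qi, hqm, hY]
    rw [hinvm, hum, one_pow]
    linear_combination (4 * (M : ℂ) ^ 2) * hup

/-- **Full (positive) answer to Q1**: the congruence of the problem holds for every odd prime `p` and
every positive integer `m`. The first item says that `gb` gives the Gaussian binomial coefficients. -/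
theorem result :
    (∀ q : L, ∀ n k : ℕ, k ≤ n →
      gb q n k * ∏ i ∈ range k, (1 - q ^ (i + 1)) = ∏ i ∈ range k, (1 - q ^ (n - i))) ∧
    ∀ p : ℕ, p.Prime → p ≠ 2 → ∀ m : ℕ, 1 ≤ m →
      (p ∣ m → ∃ R : L, (1 - (T 1 : L) ^ 2) * R = T 1 * (1 - T (-(2 * m : ℤ))) ∧
        qi (T 1 : L) p ^ 2 ∣
          (∑ j ∈ range p, qi (T 1 : L) (2 * j + 1) * T (-(j : ℤ)) * D (T 1 : L) m j * D (T (-1) : L) m j) - R) ∧
      (p ∣ m + 1 → ∃ R : L, (1 - (T 1 : L) ^ 2) * R = T 1 * (1 - T 1 ^ (2 * m + 2)) ∧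
        qi (T 1 : L) p ^ 2 ∣
          (∑ j ∈ range p, qi (T 1 : L) (2 * j + 1) * T (-(j : ℤ)) * D (T 1 : L) m j * D (T (-1) : L) m j) - R) ∧
      (¬ p ∣ m * (m + 1) →
        qi (T 1 : L) p ^ 2 ∣
          ∑ j ∈ range p, qi (T 1 : L) (2 * j + 1) * T (-(j : ℤ)) * D (T 1 : L) m j * D (T (-1) : L) m j) := by
  refine ⟨fun q n k _ => gb_prod q n k, ?_⟩
  intro p hp h2 m hm1
  refine ⟨?_, ?_, ?_⟩
  · rintro ⟨M, hM⟩
    have hM1 : 1 ≤ M := by
      rcases M with _ | M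
      · omega
      · omega
    exact S_pM hp h2 m M hM1 hM
  · rintro ⟨M, hM⟩
    have hM1 : 1 ≤ M := by
      rcases M with _ | M
      · omega
      · omega
    exact S_pM' hp h2 m M hM1 hM
  · intro h
    exact main_zero hp h2 m (fun h' => h (h'.mul_right _)) (fun h' => h (h'.mul_left _))

end final

end Pool.Agent.Results.MP_c68aab_nt.QDelannoy
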